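import Pool.Agent.Helper80.LD.THMw
import Pool.Agent.Helper42.SQ.OMs
import Pool.Agent.Helper42.SQ.SUBs
import Pool.Agent.Helper27.TOW.ALG

/-!
# BU8: the abstract theorems over the slow germs, for a subspace of `(span ξ) ^ δ`
-/

set_option autoImplicit false

namespace Pool.Agent.SQ

open NumberField Filter Module MvPolynomial
open Pool.Agent.Helper64.Vojta (Pl nv sn above)
open Pool.Agent.V2
open Pool.Agent.Chart (fld dg crd hgt)

universe u

section

variable {k : Type u} [Field k] [NumberField k] {G : Type} [Group G] [Fintype G] {D : SqG k G}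

/-- scaling of a valuation -/
private theorem scale61 {k K : Type u} [Field k] [Field K] [Algebra k K] {ω : K → ℝ} (h : RV k ω) {δ : ℕ} (hδ : 0 < δ) :
    RV k fun x => ω x / δ := by
  have hd : (0 : ℝ) < δ := by exact_mod_cast hδ
  refine ⟨fun x y hx hy => ?_, fun x y hx hy hxy => ?_, fun c hc => ?_⟩
  · show ω (x * y) / δ = ω x / δ + ω y / δ
    rw [h.mul x y hx hy, add_div]
  · show min (ω x / δ) (ω y / δ) ≤ ω (x + y) / δ
    rw [min_div_div_right hd.le]
    exact div_le_div_of_nonneg_right (h.add x y hx hy hxy) hd.le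
  · show ω (algebraMap k K c) / δ = 0
    rw [h.alg c hc, zero_div]

private theorem cinv61 {H : Subgroup G} {ι : Type} [Fintype ι] (x : ∀ n, ι → D.L n)
    (hxH : ∀ n, ∀ h ∈ H, ∀ j, D.s n h (x n j) = x n j) (v : Pl k) (g h : G) (hh : h ∈ H) :
    cg D x v (g * h) = cg D x v g := by
  unfold cg
  congr 1
  funext n
  congr 3
  funext j
  rw [map_mul, AlgEquiv.mul_apply, hxH n h hh j]

/-- two elements of the group give the same absolute value on the elements fixed by `H`: the same for the germs -/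
private theorem omg61 (F : GFG D) (H : Subgroup G) (v : Pl k) (u g : G)
    (h0 : ∀ a, ∀ z : D.L a, (∀ h ∈ H, D.s a h z = z) → D.N a v (D.s a u z) = D.N a v (D.s a g z)) (x : F.K)
    (hx : ∀ h ∈ H, F.s h x = x) : omg F v (F.s u x) = omg F v (F.s g x) := by
  rcases eq_or_ne x 0 with rfl | hx0
  · rw [map_zero, map_zero]
  have h1 := omg_tendsto F v (F.s u x) (by rwa [Ne, EmbeddingLike.map_eq_zero_iff])
  have h2 := omg_tendsto F v (F.s g x) (by rwa [Ne, EmbeddingLike.map_eq_zero_iff])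
  refine tendsto_nhds_unique h1 (h2.congr' ?_)
  have h3 : ∀ᶠ n in (D.U : Filter ℕ), ∀ h ∈ H, D.s n h (F.rp x n) = F.rp x n := by
    have : ∀ h : G, ∀ᶠ n in (D.U : Filter ℕ), h ∈ H → D.s n h (F.rp x n) = F.rp x n := by
      intro h
      by_cases hh : h ∈ H
      · filter_upwards [F.rp_s h x] with n hn _
        rw [← hn, hx h hh]
      · exact Eventually.of_forall fun n hn => absurd hn hh
    exact (eventually_all (ι := G)).2 this
  filter_upwards [h3, F.rp_s u x, F.rp_s g x] with n h4 h5 h6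
  rw [h5, h6, h0 n (F.rp x n) h4]

private theorem cgw61 (H : Subgroup G) {ι : Type} [Fintype ι] (x : ∀ n, ι → D.L n)
    (hxH : ∀ n, ∀ h ∈ H, ∀ j, D.s n h (x n j) = x n j) (v : Pl k) (u g : G)
    (h0 : ∀ a, ∀ z : D.L a, (∀ h ∈ H, D.s a h z = z) → D.N a v (D.s a u z) = D.N a v (D.s a g z)) :
    cg D x v u = cg D x v g := by
  unfold cg
  congr 1
  funext n
  congr 2
  unfold mxn
  congr 1
  funext j
  exact h0 n (x n j) fun h hh => hxH n h hh j

private theorem prod_mono61 {k K : Type u} [Field k] [Field K] [Algebra k K] {ι : Type*} (T : Finset ι)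
    {A B : ι → Submodule k K} (h : ∀ i, A i ≤ B i) : ∏ i ∈ T, A i ≤ ∏ i ∈ T, B i := by
  classical
  induction T using Finset.induction_on with
  | empty => rw [Finset.prod_empty, Finset.prod_empty]
  | insert a T ha ih =>
    rw [Finset.prod_insert ha, Finset.prod_insert ha]
    exact mul_le_mul' (h a) ih

private theorem pow_mono61 {k K : Type u} [Field k] [Field K] [Algebra k K] {A B : Submodule k K} (h : A ≤ B) (m : ℕ) :
    A ^ m ≤ B ^ m := by
  induction m with
  | zero => rw [pow_zero, pow_zero]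
  | succ m ih =>
    rw [pow_succ, pow_succ]
    exact mul_le_mul' ih h

private theorem map_pow61 {k K : Type u} [Field k] [Field K] [Algebra k K] (W : Submodule k K) (s : K ≃ₐ[k] K) (δ : ℕ) :
    (W ^ δ).map s.toLinearMap = (W.map s.toLinearMap) ^ δ := by
  have h := Submodule.map_pow W (s : K →ₐ[k] K) δ
  exact h

private theorem prod_bot61b {k K : Type u} [Field k] [Field K] [Algebra k K] [Fintype (G ⧸ (⊥ : Subgroup G))]
    (V : G → Submodule k K) : ∏ g, V g = ∏ q : G ⧸ (⊥ : Subgroup G), V q.out := by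
  symm
  refine Fintype.prod_bijective (fun q : G ⧸ (⊥ : Subgroup G) => q.out) ⟨?_, ?_⟩ _ _ fun _ => rfl
  · intro q q' h
    rw [← QuotientGroup.out_eq' q, ← QuotientGroup.out_eq' q']
    exact congrArg _ h
  · intro g
    refine ⟨(g : G ⧸ (⊥ : Subgroup G)), ?_⟩
    have h1 : ((g : G ⧸ (⊥ : Subgroup G)).out : G ⧸ (⊥ : Subgroup G)) = g := QuotientGroup.out_eq' _
    rw [QuotientGroup.eq, Subgroup.mem_bot] at h1
    exact (inv_mul_eq_one.1 h1)

variable (F : GFG D) {N : ℕ} (y : ∀ a, Fin (N + 1) → D.L a) (hy : Ptg D y) (ξ : Fin (N + 1) → F.K)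
  (hξ : ∀ j, ∀ᶠ a in (D.U : Filter ℕ), F.rp (ξ j) a = y a j)

/-- the powers of the space of linear forms are fixed -/
private theorem fixp61 {H : Subgroup G} (hξ : ∀ j, ∀ᶠ a in (D.U : Filter ℕ), F.rp (ξ j) a = y a j)
    (hyH : ∀ n, ∀ h ∈ H, ∀ j, D.s n h (y n j) = y n j) (δ : ℕ) :
    ∀ z ∈ (Submodule.span (slk F) (Set.range ξ)) ^ δ, ∀ h ∈ H, ss F h z = z := by
  intro z hz h hh
  obtain ⟨A, hA⟩ : ∃ A : Submodule (slk F) F.K, ∀ z, z ∈ A ↔ ss F h z = z := by
    refine ⟨LinearMap.eqLocus (ss F h).toLinearMap LinearMap.id, fun z => ?_⟩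
    rw [LinearMap.mem_eqLocus]
    rfl
  have h1 : Submodule.span (slk F) (Set.range ξ) ≤ A := by
    rw [Submodule.span_le]
    rintro _ ⟨j, rfl⟩
    refine (hA _).2 (F.rp_inj _ _ ?_)
    filter_upwards [hξ j, F.rp_s h (ξ j)] with n h1 h2
    show F.rp (F.s h (ξ j)) n = F.rp (ξ j) n
    rw [h2, h1, hyH n h hh j]
  have h2 : (Submodule.span (slk F) (Set.range ξ)) ^ δ ≤ A := by
    clear hz
    induction δ with
    | zero =>
      rw [pow_zero]
      rintro z hz
      obtain ⟨c, rfl⟩ := Submodule.mem_one.1 hz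
      exact (hA _).2 ((ss F h).commutes c)
    | succ δ ih =>
      rw [pow_succ, Submodule.mul_le]
      intro a ha b hb
      refine (hA _).2 ?_
      rw [map_mul, (hA a).1 (ih ha), (hA b).1 (h1 hb)]
  exact (hA z).1 (h2 hz)

include hy hξ

private theorem nonneg61 (δ : ℕ) (v : Pl k) (g : G) (z : F.K)
    (hz : z ∈ (Submodule.span (slk F) (Set.range ξ)) ^ δ) (hz0 : z ≠ 0) : 0 ≤ omg F v (ss F g z) + δ * cg D y v g := by
  have h1 : (Submodule.span (slk F) (Set.range ξ)) ^ δ ≤ lev ((omg_RVs F v).comp (ss F g)) (-(δ * cg D y v g)) := by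
    clear hz
    induction δ with
    | zero =>
      rw [pow_zero]
      rintro z hz
      obtain ⟨c, rfl⟩ := Submodule.mem_one.1 hz
      by_cases hc : c = 0
      · left
        rw [hc, map_zero]
      · right
        show -((0 : ℕ) * cg D y v g) ≤ omg F v (ss F g (algebraMap (slk F) F.K c))
        rw [(ss F g).commutes, (omg_RVs F v).alg c hc]
        simp
    | succ δ ih =>
      rw [pow_succ, Submodule.mul_le]
      intro a ha b hb
      by_cases ha0 : a = 0
      · left
        rw [ha0, zero_mul]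
      by_cases hb0 : b = 0
      · left
        rw [hb0, mul_zero]
      right
      have h2 : -(δ * cg D y v g) ≤ omg F v (ss F g a) := (ih ha).resolve_left ha0
      have h3 := omgs_nonneg F y hy ξ hξ v g b hb hb0
      show -((δ + 1 : ℕ) * cg D y v g) ≤ omg F v (ss F g (a * b))
      rw [map_mul, (omg_RVs F v).mul _ _ ((map_ne_zero _).2 ha0) ((map_ne_zero _).2 hb0)]
      push_cast
      linarith
  have h4 : -(δ * cg D y v g) ≤ omg F v (ss F g z) := (h1 hz).resolve_left hz0
  linarith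

theorem germs_ws {δ : ℕ} (hδ : 0 < δ) (P : Finset (Pl k))
    (Hs : Subgroup G) (hH : ∀ a, ∀ h ∈ Hs, ∀ j, D.s a h (y a j) = y a j)
    (lin : Pl k → Prop) [DecidablePred lin] (Gd T : Pl k → Finset G)
    (hC : ∀ a, ∀ v ∈ P, lin v → ∀ u ∈ Gd v, ∀ g ∈ T v, ∀ z : D.L a, (∀ h ∈ Hs, D.s a h z = z) →
      D.N a v (D.s a (u * g) z) = D.N a v (D.s a g z))
    {r : ℕ} (ρ : Fin r → G) (hρ : ∀ g, ∃! j, (ρ j)⁻¹ * g ∈ Hs)
    (B : Pl k → Fin r → ℝ) (hB : ∀ v ∈ P, ∀ j, 0 ≤ B v j) (Rp : Pl k → Finset (Fin r)) (cl : Pl k → Fin r → Fin r)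
    (hcl : ∀ v ∈ P, ¬ lin v → ∀ j, cl v j ∈ Rp v ∧ B v (cl v j) = B v j)
    (hclN : ∀ a, ∀ v ∈ P, ¬ lin v → ∀ j, ∀ z : D.L a, (∀ h ∈ Hs, D.s a h z = z) →
      D.N a v (D.s a (ρ (cl v j)) z) = D.N a v (D.s a (ρ j) z))
    (V' : Submodule (slk F) F.K) (hV' : V' ≤ (Submodule.span (slk F) (Set.range ξ)) ^ δ)
    (n : Pl k → G → ℕ) (e : ∀ v g, Fin (n v g) → F.K)
    (he : ∀ v ∈ P, ∀ g, LinearIndependent (slk F) (e v g)) (heV : ∀ v ∈ P, ∀ g i, e v g i ∈ V')
    (σ : ∀ v g, Fin (n v g) → ℝ) (hσ : ∀ v ∈ P, ∀ g i, σ v g i ≤ omg F v (F.s g (e v g i)) + δ * cg D y v g)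
    (n' : Pl k → Fin r → ℕ) (e' : ∀ v j, Fin (n' v j) → F.K)
    (he' : ∀ v ∈ P, ∀ j, LinearIndependent (slk F) (e' v j)) (heV' : ∀ v ∈ P, ∀ j i, e' v j i ∈ V')
    (σ' : ∀ v j, Fin (n' v j) → ℝ)
    (hσ' : ∀ v ∈ P, ∀ j i, σ' v j i ≤ omg F v (F.s (ρ j) (e' v j i)) + δ * cg D y v (ρ j))
    (hσB : ∀ v ∈ P, ∀ j i, σ' v j i ≤ B v j) :
    ∑ v ∈ P, (if lin v then ((Gd v).card : ℝ) * ∑ g ∈ T v, ∑ i, σ v g i else
      (Fintype.card G : ℝ) ^ 2 * ∑ j ∈ Rp v, (∑ i, σ' v j i -
        (1 - ((Finset.univ.filter fun j' => cl v j' = j).card : ℝ) / r) * B v j * finrank (slk F) V')) ≤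
      Fintype.card G * finrank (slk F) V' * δ := by
  classical
  have : Fintype (G ⧸ (⊥ : Subgroup G)) := Fintype.ofFinite _
  have hd : (0 : ℝ) < δ := by exact_mod_cast hδ
  have hyB : ∀ n, ∀ h ∈ (⊥ : Subgroup G), ∀ j, D.s n h (y n j) = y n j := fun n h hh j => by
    rw [Subgroup.mem_bot.1 hh, map_one]
    rfl
  have hsub := sub_ts F y hy ξ hξ hyB P
  have hnn := nonneg61 F y hy ξ hξ δ
  have hfix := fixp61 F y ξ hξ hH δ
  obtain ⟨W, hW⟩ : ∃ W : Submodule (slk F) F.K, W = Submodule.span (slk F) (Set.range ξ) := ⟨_, rfl⟩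
  rw [← hW] at hV' hsub hnn hfix
  have hfdW : FiniteDimensional (slk F) W := by
    rw [hW]
    exact FiniteDimensional.span_of_finite (slk F) (Set.finite_range ξ)
  have hfgW : (W ^ δ).FG := Submodule.FG.pow ((Submodule.fg_iff_finiteDimensional W).2 hfdW) δ
  have hfd0 : FiniteDimensional (slk F) ↥(W ^ δ) := (Submodule.fg_iff_finiteDimensional _).1 hfgW
  have hfd : FiniteDimensional (slk F) V' := Submodule.finiteDimensional_of_le hV'
  have hmain := thm_w (ss F) (P := P) (fun v x => omg F v x / δ) (fun v => scale61 (omg_RVs F v) hδ)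
    (fun v g => cg D y v g) V'
    (fun v g z hz hz0 => by
      have h1 := hnn v g z (hV' hz) hz0
      have h2 : 0 ≤ (omg F v (ss F g z) + δ * cg D y v g) / δ := div_nonneg h1 hd.le
      rwa [add_div, mul_div_cancel_left₀ _ hd.ne'] at h2)
    (fun m E hE hEs n' z hz hzE => by
      have h1 := hsub (m * δ) E (by
        refine hE.trans ?_
        have h5 : ∏ g, V'.map (ss F g).toLinearMap ≤ ∏ g, (W.map (ss F g).toLinearMap) ^ δ :=
          prod_mono61 (k := slk F) (K := F.K) _ fun g => by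
            rw [← map_pow61]
            exact Submodule.map_mono hV'
        rw [Finset.prod_pow] at h5
        rw [← prod_bot61b (fun g => W.map (ss F g).toLinearMap), mul_comm m δ, pow_mul]
        exact pow_mono61 h5 m) hEs n' z hz hzE
      have h2 : ∑ v : P, ∑ i, ((omg F v (z v i) / δ) + m * ∑ g, cg D y v g) =
          (∑ v : P, ∑ i, (Nat.card (⊥ : Subgroup G) * omg F v (z v i) + ((m * δ : ℕ) : ℝ) * ∑ g, cg D y v g)) / δ := by
        rw [Finset.sum_div]
        refine Finset.sum_congr rfl fun v _ => ?_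
        rw [Finset.sum_div]
        refine Finset.sum_congr rfl fun i _ => ?_
        rw [Subgroup.card_bot]
        push_cast
        field_simp
      rw [h2, div_le_iff₀ hd]
      refine h1.trans (le_of_eq ?_)
      push_cast
      ring)
    Hs (fun h hh z hz => hfix z (hV' hz) h hh) (fun v g h hh => cinv61 y hH v g h hh)
    (fun v => lin v) (fun v => Gd v) (fun v => T v)
    (fun v hv u hu g hg => ⟨cgw61 Hs y hH v (u * g) g fun a z hz => hC a v v.2 hv u hu g hg z hz,
      fun z hz => by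
        show omg F v (F.s (u * g) z) / δ = omg F v (F.s g z) / δ
        rw [omg61 F Hs v (u * g) g (fun a z hz => hC a v v.2 hv u hu g hg z hz) z hz]⟩)
    ρ hρ (fun v g => n v g) (fun v g i => e v g i) (fun v g => he v v.2 g) (fun v g i => heV v v.2 g i)
    (fun v j => B v j / δ) (fun v j => div_nonneg (hB v v.2 j) hd.le) (fun v => Rp v) (fun v => cl v)
    (fun v hv j => ⟨(hcl v v.2 hv j).1, by rw [(hcl v v.2 hv j).2],
      cgw61 Hs y hH v _ _ fun a z hz => hclN a v v.2 hv j z hz,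
      fun z hz => by
        show omg F v (F.s (ρ (cl v j)) z) / δ = omg F v (F.s (ρ j) z) / δ
        rw [omg61 F Hs v _ _ (fun a z hz => hclN a v v.2 hv j z hz) z hz]⟩)
    (fun v j => n' v j) (fun v j i => e' v j i) (fun v j => he' v v.2 j) (fun v g i => heV' v v.2 g i)
  have hkey : ∑ v ∈ P, (if lin v then ((Gd v).card : ℝ) * ∑ g ∈ T v, ∑ i, σ v g i else
      (Fintype.card G : ℝ) ^ 2 * ∑ j ∈ Rp v, (∑ i, σ' v j i -
        (1 - ((Finset.univ.filter fun j' => cl v j' = j).card : ℝ) / r) * B v j * finrank (slk F) V')) / δ ≤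
      Fintype.card G * finrank (slk F) V' := by
    refine le_trans ?_ hmain
    rw [← Finset.sum_coe_sort P]
    refine Finset.sum_le_sum fun v _ => ?_
    have hval : ∀ (z : F.K) (g : G) (t : ℝ), t ≤ omg F v (F.s g z) + δ * cg D y v g →
        t / δ ≤ omg F v (ss F g z) / δ + cg D y v g := by
      intro z g t ht
      have h2 : t / δ ≤ (omg F v (F.s g z) + δ * cg D y v g) / δ := div_le_div_of_nonneg_right ht hd.le
      rwa [add_div, mul_div_cancel_left₀ _ hd.ne'] at h2
    by_cases hv : lin v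
    · rw [if_pos hv, if_pos hv, mul_div_assoc]
      refine mul_le_mul_of_nonneg_left ?_ (Nat.cast_nonneg _)
      rw [Finset.sum_div]
      refine Finset.sum_le_sum fun g _ => ?_
      rw [Finset.sum_div]
      exact Finset.sum_le_sum fun i _ => hval _ _ _ (hσ v v.2 g i)
    · rw [if_neg hv, if_neg hv, mul_div_assoc]
      refine mul_le_mul_of_nonneg_left ?_ (by positivity)
      rw [Finset.sum_div]
      refine Finset.sum_le_sum fun j _ => ?_
      rw [sub_div, Finset.sum_div]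
      refine sub_le_sub ?_ (le_of_eq ?_)
      · exact Finset.sum_le_sum fun i _ => le_min (div_le_div_of_nonneg_right (hσB v v.2 j i) hd.le)
          (hval _ _ _ (hσ' v v.2 j i))
      · ring
  rw [← Finset.sum_div, div_le_iff₀ hd] at hkey
  exact hkey

theorem germs_ts {δ : ℕ} (hδ : 0 < δ) {H : Subgroup G} [Fintype (G ⧸ H)] (hHs : H.IsSubnormal)
    (hyH : ∀ n, ∀ h ∈ H, ∀ j, D.s n h (y n j) = y n j) (P : Finset (Pl k))
    (V' : Submodule (slk F) F.K) (hV' : V' ≤ (Submodule.span (slk F) (Set.range ξ)) ^ δ)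
    (n : Pl k → G → ℕ) (e : ∀ v g, Fin (n v g) → F.K)
    (he : ∀ v ∈ P, ∀ g, LinearIndependent (slk F) (e v g)) (heV : ∀ v ∈ P, ∀ g i, e v g i ∈ V')
    (σ : ∀ v g, Fin (n v g) → ℝ) (hσ : ∀ v ∈ P, ∀ g i, σ v g i ≤ omg F v (F.s g (e v g i)) + δ * cg D y v g) :
    ∑ v ∈ P, ∑ g, ∑ i, σ v g i ≤ H.index * finrank (slk F) V' * δ := by
  classical
  have hd : (0 : ℝ) < δ := by exact_mod_cast hδ
  have hsub := sub_ts F y hy ξ hξ hyH P
  have hnn := nonneg61 F y hy ξ hξ δ
  have hfix := fixp61 F y ξ hξ hyH δ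
  obtain ⟨W, hW⟩ : ∃ W : Submodule (slk F) F.K, W = Submodule.span (slk F) (Set.range ξ) := ⟨_, rfl⟩
  rw [← hW] at hV' hsub hnn hfix
  have hfdW : FiniteDimensional (slk F) W := by
    rw [hW]
    exact FiniteDimensional.span_of_finite (slk F) (Set.finite_range ξ)
  have hfgW : (W ^ δ).FG := Submodule.FG.pow ((Submodule.fg_iff_finiteDimensional W).2 hfdW) δ
  have hfd0 : FiniteDimensional (slk F) ↥(W ^ δ) := (Submodule.fg_iff_finiteDimensional _).1 hfgW
  have hfd : FiniteDimensional (slk F) V' := Submodule.finiteDimensional_of_le hV'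
  have hmain := thm_t (ss F) hHs (P := P) (fun v x => omg F v x / δ) (fun v => scale61 (omg_RVs F v) hδ)
    (fun v g => cg D y v g) (fun v g h hh => cinv61 y hyH v g h hh) V' (fun z hz h hh => hfix z (hV' hz) h hh)
    (fun v g z hz hz0 => by
      have h1 := hnn v g z (hV' hz) hz0
      have h2 : 0 ≤ (omg F v (ss F g z) + δ * cg D y v g) / δ := div_nonneg h1 hd.le
      rwa [add_div, mul_div_cancel_left₀ _ hd.ne'] at h2)
    (fun m E hE hEs n' z hz hzE => by
      have h1 := hsub (m * δ) E (by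
        refine hE.trans ?_
        have h5 : ∏ q : G ⧸ H, V'.map (ss F q.out).toLinearMap ≤ ∏ q : G ⧸ H, (W.map (ss F q.out).toLinearMap) ^ δ :=
          prod_mono61 (k := slk F) (K := F.K) _ fun g => by
            rw [← map_pow61]
            exact Submodule.map_mono hV'
        rw [Finset.prod_pow] at h5
        rw [mul_comm m δ, pow_mul]
        exact pow_mono61 h5 m) hEs n' z hz hzE
      have h2 : ∑ v : P, ∑ i, (Nat.card H * (omg F v (z v i) / δ) + m * ∑ g, cg D y v g) =
          (∑ v : P, ∑ i, (Nat.card H * omg F v (z v i) + ((m * δ : ℕ) : ℝ) * ∑ g, cg D y v g)) / δ := by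
        rw [Finset.sum_div]
        refine Finset.sum_congr rfl fun v _ => ?_
        rw [Finset.sum_div]
        refine Finset.sum_congr rfl fun i _ => ?_
        push_cast
        field_simp
      rw [h2, div_le_iff₀ hd]
      refine h1.trans (le_of_eq ?_)
      push_cast
      ring)
    (fun v g => n v g) (fun v g i => e v g i) (fun v g => he v v.2 g) (fun v g i => heV v v.2 g i)
  have hkey : (∑ v ∈ P, ∑ g, ∑ i, σ v g i) / δ ≤ H.index * finrank (slk F) V' := by
    refine le_trans ?_ hmain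
    rw [← Finset.sum_coe_sort P, Finset.sum_div]
    refine Finset.sum_le_sum fun v _ => ?_
    rw [Finset.sum_div]
    refine Finset.sum_le_sum fun g _ => ?_
    rw [Finset.sum_div]
    refine Finset.sum_le_sum fun i _ => ?_
    have h2 : σ v g i / δ ≤ (omg F v (F.s g (e v g i)) + δ * cg D y v g) / δ :=
      div_le_div_of_nonneg_right (hσ v v.2 g i) hd.le
    rwa [add_div, mul_div_cancel_left₀ _ hd.ne'] at h2
  rw [div_le_iff₀ hd] at hkey
  exact hkey

end

end Pool.Agent.SQ
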