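import Mathlib

/-!
# BU1: a union of Zariski open subsets is a finite union; linear independence is an open condition
-/

set_option autoImplicit false

namespace Pool.Agent.SQ

open Filter Module MvPolynomial

universe u

theorem nl {k T : Type*} [Field k] [Finite T] {Φ : Type*} (O : Φ → Set (T → k))
    (hO : ∀ φ, ∀ c ∈ O φ, ∃ Δ : MvPolynomial T k, aeval c Δ ≠ 0 ∧ ∀ c' : T → k, aeval c' Δ ≠ 0 → c' ∈ O φ) :
    ∃ S : Finset Φ, ∀ φ, ∀ c ∈ O φ, ∃ φ' ∈ S, c ∈ O φ' := by
  classical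
  obtain ⟨A, hA⟩ : ∃ A : Set (MvPolynomial T k), A = {Δ | ∃ φ, ∀ c' : T → k, aeval c' Δ ≠ 0 → c' ∈ O φ} := ⟨_, rfl⟩
  have hfg : (Submodule.span (MvPolynomial T k) A).FG := IsNoetherian.noetherian _
  obtain ⟨F, hFA, hF⟩ := (Submodule.fg_span_iff_fg_span_finset_subset A).1 hfg
  have hA' : ∀ Δ ∈ A, ∃ φ, ∀ c' : T → k, aeval c' Δ ≠ 0 → c' ∈ O φ := fun Δ h => by
    rw [hA] at h
    exact h
  choose φ hφ using hA'
  refine ⟨F.attach.image fun Δ => φ Δ.1 (hFA Δ.2), fun ψ c hc => ?_⟩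
  obtain ⟨Δ, h1, h2⟩ := hO ψ c hc
  by_contra hcon
  push Not at hcon
  apply h1
  have h3 : Δ ∈ Submodule.span (MvPolynomial T k) (F : Set (MvPolynomial T k)) := by
    rw [← hF]
    refine Submodule.subset_span ?_
    rw [hA]
    exact ⟨ψ, h2⟩
  have h4 : Ideal.span (F : Set (MvPolynomial T k)) ≤ RingHom.ker (aeval c : MvPolynomial T k →ₐ[k] k) := by
    rw [Ideal.span_le]
    intro Δ' h5
    by_contra h6
    exact hcon (φ Δ' (hFA h5)) (Finset.mem_image.2 ⟨⟨Δ', h5⟩, Finset.mem_attach _ _, rfl⟩) (hφ Δ' (hFA h5) c h6)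
  exact h4 h3

theorem op_li {k T : Type*} [Field k] {R D : ℕ} (Ψ : Fin R → Fin D → MvPolynomial T k) (c : T → k)
    (h : LinearIndependent k fun t b => aeval c (Ψ t b)) :
    ∃ Δ : MvPolynomial T k, aeval c Δ ≠ 0 ∧ ∀ c' : T → k, aeval c' Δ ≠ 0 → LinearIndependent k fun t b => aeval c' (Ψ t b) := by
  classical
  obtain ⟨g, hg⟩ := LinearMap.exists_leftInverse_of_injective
    (Fintype.linearCombination k (fun t b => aeval c (Ψ t b) : Fin R → Fin D → k))
    (LinearMap.ker_eq_bot.2 (linearIndependent_iff_injective_fintypeLinearCombination.1 h))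
  have hdet : ∀ c' : T → k, aeval c' (Matrix.det (Matrix.of fun t s : Fin R => ∑ b, Ψ t b * C (g (Pi.single b 1) s))) =
      Matrix.det (Matrix.of fun t s : Fin R => g (fun b => aeval c' (Ψ t b)) s) := by
    intro c'
    rw [AlgHom.map_det]
    congr 1
    ext t s
    have h1 : (fun b => aeval c' (Ψ t b)) = ∑ b, aeval c' (Ψ t b) • (Pi.single b 1 : Fin D → k) := by
      ext b
      simp [Finset.sum_apply, Pi.single_apply]
    rw [AlgHom.mapMatrix_apply, Matrix.map_apply, Matrix.of_apply, Matrix.of_apply, map_sum, h1, map_sum,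
      Finset.sum_apply]
    refine Finset.sum_congr rfl fun b _ => ?_
    rw [map_mul, aeval_C, map_smul, Pi.smul_apply, smul_eq_mul]
    rfl
  refine ⟨Matrix.det (Matrix.of fun t s : Fin R => ∑ b, Ψ t b * C (g (Pi.single b 1) s)), ?_, fun c' hc' => ?_⟩
  · rw [hdet]
    have h1 : (Matrix.of fun t s : Fin R => g (fun b => aeval c (Ψ t b)) s) = 1 := by
      ext t s
      have h2 := LinearMap.congr_fun hg (Pi.single t 1)
      rw [LinearMap.comp_apply, LinearMap.id_apply, Fintype.linearCombination_apply_single, one_smul] at h2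
      rw [Matrix.of_apply, h2, Matrix.one_apply, Pi.single_apply]
      simp only [eq_comm]
    rw [h1, Matrix.det_one]
    exact one_ne_zero
  · rw [hdet] at hc'
    have h1 : LinearIndependent k (g ∘ fun t b => aeval c' (Ψ t b)) :=
      Matrix.linearIndependent_rows_of_det_ne_zero hc'
    exact LinearIndependent.of_comp g h1

end Pool.Agent.SQ
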