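import Pool.Agent.Helper68.BU.Defs
import Pool.Agent.Helper61.BU.NL

/-!
# BU3: uniform Nullstellensatz
-/

set_option autoImplicit false

namespace Pool.Agent.SQ

open NumberField Filter Module MvPolynomial

universe u

private theorem mns_deg61 {N d : ℕ} (e : Fin (N + 1) →₀ ℕ) :
    e ∈ Finset.finsuppAntidiag (Finset.univ : Finset (Fin (N + 1))) d ↔ e.degree = d := by
  rw [Finset.mem_finsuppAntidiag, Finsupp.degree_eq_sum]
  exact ⟨fun h => h.1, fun h => ⟨h, fun _ _ => Finset.mem_univ _⟩⟩

private theorem tfrm_hom61 {R : Type*} [CommSemiring R] {N d q : ℕ} (c : Fin q × Mns N d → R) (i : Fin q) :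
    (tfrm c i).IsHomogeneous d := by
  unfold tfrm
  refine IsHomogeneous.sum _ _ _ fun μ _ => isHomogeneous_monomial _ ?_
  exact (mns_deg61 _).1 μ.2

/-- the homogeneous component in the monomials -/
private theorem hcomp61 {k : Type*} [CommSemiring k] {N M : ℕ} (p : MvPolynomial (Fin (N + 1)) k) :
    homogeneousComponent M p = ∑ μ : Mns N M, monomial μ.1 (coeff μ.1 p) := by
  classical
  ext e
  rw [coeff_homogeneousComponent, coeff_sum]
  simp only [coeff_monomial]
  split_ifs with h
  · rw [Finset.sum_eq_single (⟨e, (mns_deg61 e).2 h⟩ : Mns N M)]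
    · rw [if_pos rfl]
    · intro μ _ hμ
      rw [if_neg]
      intro h1
      exact hμ (Subtype.ext h1)
    · intro h1
      exact absurd (Finset.mem_univ _) h1
  · symm
    refine Finset.sum_eq_zero fun μ _ => ?_
    rw [if_neg]
    intro h1
    apply h
    rw [← h1]
    exact (mns_deg61 _).1 μ.2

attribute [local instance] MvPolynomial.gradedAlgebra in
/-- the ideal is homogeneous -/
private theorem jhom61 {k : Type*} [Field k] {N d s : ℕ} {I : Ideal (MvPolynomial (Fin (N + 1)) k)}
    (hI : ∀ p ∈ I, ∀ m, homogeneousComponent m p ∈ I) (c : Fin s × Mns N d → k) :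
    ∀ p ∈ I ⊔ Ideal.span (Set.range (tfrm c)), ∀ m, homogeneousComponent m p ∈ I ⊔ Ideal.span (Set.range (tfrm c)) := by
  have h1 : I.IsHomogeneous (homogeneousSubmodule (Fin (N + 1)) k) := by
    intro m p hp
    have h : ((DirectSum.decompose (homogeneousSubmodule (Fin (N + 1)) k)) p m : MvPolynomial (Fin (N + 1)) k) =
      homogeneousComponent m p := decomposition.decompose'_apply p m
    rw [h]
    exact hI p hp m
  have h2 : (Ideal.span (Set.range (tfrm c))).IsHomogeneous (homogeneousSubmodule (Fin (N + 1)) k) := by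
    refine Ideal.homogeneous_span _ _ ?_
    rintro _ ⟨i, rfl⟩
    exact ⟨d, tfrm_hom61 c i⟩
  have h3 := h1.sup h2
  intro p hp m
  have h4 := h3 m hp
  have h : ((DirectSum.decompose (homogeneousSubmodule (Fin (N + 1)) k)) p m : MvPolynomial (Fin (N + 1)) k) =
    homogeneousComponent m p := decomposition.decompose'_apply p m
  rwa [h] at h4

theorem nul_u {k : Type u} [Field k] {N : ℕ} (d s : ℕ) (I : Ideal (MvPolynomial (Fin (N + 1)) k))
    (hI : ∀ p ∈ I, ∀ m, homogeneousComponent m p ∈ I) :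
    ∃ M : ℕ, ∀ c : Fin s × Mns N d → k,
      (∃ M', ∀ l, (X l : MvPolynomial (Fin (N + 1)) k) ^ M' ∈ I ⊔ Ideal.span (Set.range (tfrm c))) →
      ∀ l, (X l : MvPolynomial (Fin (N + 1)) k) ^ M ∈ I ⊔ Ideal.span (Set.range (tfrm c)) := by
  classical
  obtain ⟨S, hS⟩ := nl (k := k) (T := Fin s × Mns N d) (Φ := ℕ)
    (fun M => {c | ∀ μ : Mns N M, (monomial μ.1 1 : MvPolynomial (Fin (N + 1)) k) ∈ I ⊔ Ideal.span (Set.range (tfrm c))})
    (by
      intro M c hc
      have h1 : ∀ μ : Mns N M, ∃ i ∈ I, ∃ g : Fin s → MvPolynomial (Fin (N + 1)) k,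
          i + ∑ j, g j * tfrm c j = monomial μ.1 1 := by
        intro μ
        obtain ⟨i, hi, z, hz, h2⟩ := Submodule.mem_sup.1 (hc μ)
        obtain ⟨g, hg⟩ := (Ideal.mem_span_range_iff_exists_fun).1 hz
        exact ⟨i, hi, g, by rw [hg, h2]⟩
      choose i hi g hg using h1
      obtain ⟨Ψ, hΨ⟩ : ∃ Ψ : Matrix (Mns N M) (Mns N M) (MvPolynomial (Fin s × Mns N d) k), Ψ = Matrix.of fun μ μ' =>
        C (coeff μ'.1 (i μ)) + ∑ j, ∑ ν : Mns N d, X (j, ν) * C (coeff μ'.1 (g μ j * monomial ν.1 1)) := ⟨_, rfl⟩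
      have hev : ∀ c' : Fin s × Mns N d → k, aeval c' Ψ.det =
          (Matrix.of fun μ μ' : Mns N M => coeff μ'.1 (i μ + ∑ j, g μ j * tfrm c' j)).det := by
        intro c'
        rw [AlgHom.map_det]
        congr 1
        ext μ μ'
        rw [AlgHom.mapMatrix_apply, Matrix.map_apply, hΨ, Matrix.of_apply, Matrix.of_apply, map_add, aeval_C, map_sum,
          coeff_add, coeff_sum]
        congr 1
        refine Finset.sum_congr rfl fun j _ => ?_
        rw [map_sum, tfrm, Finset.mul_sum, coeff_sum]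
        refine Finset.sum_congr rfl fun ν _ => ?_
        rw [map_mul, aeval_X, aeval_C]
        have h3 : (monomial ν.1 (c' (j, ν)) : MvPolynomial (Fin (N + 1)) k) = C (c' (j, ν)) * monomial ν.1 1 := by
          rw [C_mul_monomial, mul_one]
        rw [h3, mul_left_comm, coeff_C_mul]
        rfl
      refine ⟨Ψ.det, ?_, fun c' hc' μ₀ => ?_⟩
      · rw [hev]
        have h2 : (Matrix.of fun μ μ' : Mns N M => coeff μ'.1 (i μ + ∑ j, g μ j * tfrm c j)) = 1 := by
          ext μ μ'
          rw [Matrix.of_apply, hg, coeff_monomial, Matrix.one_apply]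
          simp only [Subtype.ext_iff]
        rw [h2, Matrix.det_one]
        exact one_ne_zero
      · rw [hev] at hc'
        obtain ⟨A, hA⟩ : ∃ A : Matrix (Mns N M) (Mns N M) k,
            A = Matrix.of fun μ μ' : Mns N M => coeff μ'.1 (i μ + ∑ j, g μ j * tfrm c' j) := ⟨_, rfl⟩
        rw [← hA] at hc'
        have hinv : A⁻¹ * A = 1 := Matrix.nonsing_inv_mul A (isUnit_iff_ne_zero.2 hc')
        have hw : ∀ μ : Mns N M, homogeneousComponent M (i μ + ∑ j, g μ j * tfrm c' j) ∈
            I ⊔ Ideal.span (Set.range (tfrm c')) := by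
          intro μ
          refine jhom61 hI c' _ ?_ M
          refine Submodule.add_mem_sup (hi μ) ?_
          exact Submodule.sum_mem _ fun j _ => Ideal.mul_mem_left _ _ (Ideal.subset_span ⟨j, rfl⟩)
        have h5 : (monomial μ₀.1 1 : MvPolynomial (Fin (N + 1)) k) =
            ∑ μ : Mns N M, C (A⁻¹ μ₀ μ) * homogeneousComponent M (i μ + ∑ j, g μ j * tfrm c' j) := by
          simp only [hcomp61, Finset.mul_sum, C_mul_monomial]
          rw [Finset.sum_comm]
          have h6 : ∀ μ' : Mns N M, ∑ μ : Mns N M, (monomial μ'.1 (A⁻¹ μ₀ μ * coeff μ'.1 (i μ + ∑ j, g μ j * tfrm c' j)) :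
              MvPolynomial (Fin (N + 1)) k) = monomial μ'.1 ((1 : Matrix (Mns N M) (Mns N M) k) μ₀ μ') := by
            intro μ'
            rw [← map_sum]
            congr 1
            rw [← hinv, Matrix.mul_apply, hA]
            rfl
          simp only [h6, Matrix.one_apply]
          rw [Finset.sum_eq_single μ₀]
          · rw [if_pos rfl]
          · intro μ' _ h7
            rw [if_neg (Ne.symm h7), map_zero]
          · intro h7
            exact absurd (Finset.mem_univ _) h7
        rw [h5]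
        exact Ideal.sum_mem _ fun μ _ => Ideal.mul_mem_left _ _ (hw μ))
  refine ⟨S.sup id, fun c hc l => ?_⟩
  obtain ⟨M', hM'⟩ := hc
  obtain ⟨M, hMS, hM⟩ := hS ((N + 1) * M') c (by
    intro μ
    obtain ⟨l, hl⟩ : ∃ l, M' ≤ μ.1 l := by
      by_contra hcon
      push Not at hcon
      have h1 : μ.1.degree = (N + 1) * M' := (mns_deg61 _).1 μ.2
      rw [Finsupp.degree_eq_sum] at h1
      have h2 : ∑ l, μ.1 l < ∑ _l : Fin (N + 1), M' := Finset.sum_lt_sum_of_nonempty Finset.univ_nonempty fun l _ => hcon l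
      rw [Finset.sum_const, Finset.card_univ, Fintype.card_fin, smul_eq_mul] at h2
      omega
    have h3 : (monomial μ.1 1 : MvPolynomial (Fin (N + 1)) k) =
        monomial (μ.1 - Finsupp.single l M') 1 * X l ^ M' := by
      rw [X_pow_eq_monomial, monomial_mul, mul_one]
      congr 2
      exact (tsub_add_cancel_of_le (Finsupp.single_le_iff.2 hl)).symm
    rw [h3]
    exact Ideal.mul_mem_left _ _ (hM' l))
  have h4 : (X l : MvPolynomial (Fin (N + 1)) k) ^ M ∈ I ⊔ Ideal.span (Set.range (tfrm c)) := by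
    rw [X_pow_eq_monomial]
    exact hM ⟨Finsupp.single l M, (mns_deg61 _).2 (Finsupp.degree_single l M)⟩
  have h5 : M ≤ S.sup id := Finset.le_sup (f := id) hMS
  rw [← Nat.sub_add_cancel h5, pow_add]
  exact Ideal.mul_mem_left _ _ h4

end Pool.Agent.SQ
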